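import Pool.Agent.helper27.SY.Spec

/-!
# Project sy (MP_5628fe_nt): row OM
-/

set_option autoImplicit false

open Finset ArithmeticFunction

namespace Pool.Agent.SY

open Pool.Agent.SX Pool.Agent.helper85.BVP

theorem OM_l_pos {H : ℕ} (hH : 1 ≤ H) : (0 : ℝ) < H * (Real.log 2 / 10) := by
  have h1 : (0 : ℝ) < H := by exact_mod_cast hH
  have h2 : 0 < Real.log 2 := Real.log_pos (by norm_num)
  positivity

theorem OM_wH_nonneg (h1 : SAD_stmt) {H p : ℕ} (hH : 1 ≤ H) (hp : p ∈ Pr H) : 0 ≤ wH H p := by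
  have hl := OM_l_pos hH
  obtain ⟨hpp, h7, hlt⟩ := (h1.1 H p).1 hp
  unfold wH
  have h2 : Real.log p ≤ H * (Real.log 2 / 10) := by
    have h3 : Real.log ((p : ℝ) ^ 10) ≤ Real.log ((2 : ℝ) ^ H) := by
      apply Real.log_le_log
      · have : (0 : ℝ) < p := by exact_mod_cast hpp.pos
        positivity
      · exact_mod_cast hlt.le
    rw [Real.log_pow, Real.log_pow] at h3
    push_cast at h3
    linarith
  have h4 : Real.log p / (H * (Real.log 2 / 10)) ≤ 1 := by
    rw [div_le_one hl]
    exact h2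
  linarith

theorem OM_key (h1 : SAD_stmt) (H x : ℕ) (hH : 1 ≤ H) (hx : 0 < x)
    (h7 : ∀ p : ℕ, p.Prime → p ∣ x → 7 ≤ p) (hsq : ∀ p ∈ Pr H, ¬ p ^ 2 ∣ x) :
    (cardFactors x : ℝ) ≤ Real.log x / (H * (Real.log 2 / 10)) +
      ∑ p ∈ (Pr H).filter (fun p => p ∣ x), wH H p := by
  have hl := OM_l_pos hH
  have e1 : (cardFactors x : ℝ) = ∑ p ∈ x.primeFactors, (x.factorization p : ℝ) := by
    rw [cardFactors_eq_sum_factorization, Finsupp.sum, Nat.support_factorization]
    push_cast
    rfl
  have e2 : Real.log x = ∑ p ∈ x.primeFactors, (x.factorization p : ℝ) * Real.log p := by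
    rw [Real.log_nat_eq_sum_factorization, Finsupp.sum, Nat.support_factorization]
  have e3 : (cardFactors x : ℝ) - Real.log x / (H * (Real.log 2 / 10)) =
      ∑ p ∈ x.primeFactors, (x.factorization p : ℝ) * wH H p := by
    rw [e1, e2, Finset.sum_div, ← Finset.sum_sub_distrib]
    apply Finset.sum_congr rfl
    intro p _
    unfold wH
    ring
  have e4 : ∑ p ∈ x.primeFactors, (x.factorization p : ℝ) * wH H p ≤
      ∑ p ∈ x.primeFactors, if p ∈ Pr H then wH H p else 0 := by
    apply Finset.sum_le_sum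
    intro p hpk
    have hpp : p.Prime := Nat.prime_of_mem_primeFactors hpk
    have hpd : p ∣ x := Nat.dvd_of_mem_primeFactors hpk
    by_cases hpn : p ∈ Pr H
    · rw [if_pos hpn]
      have hv : x.factorization p = 1 := by
        have h5 : 1 ≤ x.factorization p := by
          rw [← Nat.Prime.dvd_iff_one_le_factorization hpp hx.ne']
          exact hpd
        have h6 : x.factorization p < 2 := by
          by_contra hcon
          push Not at hcon
          exact hsq p hpn ((Nat.Prime.pow_dvd_iff_le_factorization hpp hx.ne').mpr hcon)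
        omega
      rw [hv, Nat.cast_one, one_mul]
    · rw [if_neg hpn]
      apply mul_nonpos_of_nonneg_of_nonpos
      · exact Nat.cast_nonneg _
      · have h5 : 2 ^ H ≤ p ^ 10 := by
          by_contra hcon
          push Not at hcon
          exact hpn ((h1.1 H p).2 ⟨hpp, h7 p hpp hpd, hcon⟩)
        have h6 : (H : ℝ) * (Real.log 2 / 10) ≤ Real.log p := by
          have h8 : Real.log ((2 : ℝ) ^ H) ≤ Real.log ((p : ℝ) ^ 10) := by
            apply Real.log_le_log (by positivity)
            exact_mod_cast h5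
          rw [Real.log_pow, Real.log_pow] at h8
          push_cast at h8
          linarith
        have h9 : 1 ≤ Real.log p / (H * (Real.log 2 / 10)) := by
          rw [le_div_iff₀ hl]
          linarith
        unfold wH
        linarith
  have e5 : ∑ p ∈ x.primeFactors, (if p ∈ Pr H then wH H p else 0) ≤
      ∑ p ∈ (Pr H).filter (fun p => p ∣ x), wH H p := by
    rw [← Finset.sum_filter]
    apply Finset.sum_le_sum_of_subset_of_nonneg
    · intro p hpm
      rw [Finset.mem_filter] at hpm ⊢
      exact ⟨hpm.2, Nat.dvd_of_mem_primeFactors hpm.1⟩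
    · intro p hpm _
      rw [Finset.mem_filter] at hpm
      exact OM_wH_nonneg h1 hH hpm.1
  linarith

theorem OM_seven (x : ℕ) (hx : x % 30 = 1 ∨ x % 30 = 7) (p : ℕ) (hp : p.Prime) (hd : p ∣ x) :
    7 ≤ p := by
  by_contra hcon
  push Not at hcon
  have hp2 := hp.two_le
  interval_cases p
  · omega
  · omega
  · revert hp; decide
  · omega
  · revert hp; decide

theorem OM (h1 : SAD_stmt) : OM_stmt := by
  intro K y h H k b hH hk
  unfold Gk at hk
  rw [Finset.mem_filter] at hk
  obtain ⟨-, -, hsq, hW⟩ := hk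
  have hK1 := OM_key h1 H (30 * k + 1) hH (by omega)
    (fun p hp hd => OM_seven (30 * k + 1) (by omega) p hp hd) (fun p hp => (hsq p hp).1)
  have hK2 := OM_key h1 H (30 * k + 7) hH (by omega)
    (fun p hp hd => OM_seven (30 * k + 7) (by omega) p hp hd) (fun p hp => (hsq p hp).2)
  have hsplit : ∑ p ∈ (Pr H).filter (fun p => p ∣ (30 * k + 1) * (30 * k + 7)), wH H p =
      ∑ p ∈ (Pr H).filter (fun p => p ∣ 30 * k + 1), wH H p +
      ∑ p ∈ (Pr H).filter (fun p => p ∣ 30 * k + 7), wH H p := by
    rw [← Finset.sum_union]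
    · apply Finset.sum_congr _ (fun _ _ => rfl)
      ext p
      simp only [Finset.mem_filter, Finset.mem_union]
      constructor
      · rintro ⟨h1', h2'⟩
        rcases (Nat.Prime.dvd_mul ((h1.1 H p).1 h1').1).mp h2' with h3 | h3
        · exact Or.inl ⟨h1', h3⟩
        · exact Or.inr ⟨h1', h3⟩
      · rintro (⟨h1', h2'⟩ | ⟨h1', h2'⟩)
        · exact ⟨h1', Dvd.dvd.mul_right h2' _⟩
        · exact ⟨h1', Dvd.dvd.mul_left h2' _⟩
    · rw [Finset.disjoint_left]
      intro p hp1 hp2
      rw [Finset.mem_filter] at hp1 hp2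
      have h7 := ((h1.1 H p).1 hp1.1).2.1
      have h6 : p ∣ 6 := by
        have := Nat.dvd_sub hp2.2 hp1.2
        rwa [show 30 * k + 7 - (30 * k + 1) = 6 by omega] at this
      have := Nat.le_of_dvd (by norm_num) h6
      omega
  have hW1 : 0 ≤ ∑ p ∈ (Pr H).filter (fun p => p ∣ 30 * k + 1), wH H p := by
    apply Finset.sum_nonneg
    intro p hp
    rw [Finset.mem_filter] at hp
    exact OM_wH_nonneg h1 hH hp.1
  have hW2 : 0 ≤ ∑ p ∈ (Pr H).filter (fun p => p ∣ 30 * k + 7), wH H p := by
    apply Finset.sum_nonneg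
    intro p hp
    rw [Finset.mem_filter] at hp
    exact OM_wH_nonneg h1 hH hp.1
  rw [hsplit] at hW
  push_cast at hK1 hK2
  refine ⟨?_, ?_, ?_⟩
  · rw [add_div]
    linarith
  · linarith
  · linarith

end Pool.Agent.SY
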